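import Mathlib

/-!
# HN/C3, part a: the section polynomial (port of `N141.CV.C3a` to any dimension)
-/

set_option autoImplicit false

open Polynomial

namespace Pool.Agent.N935.HN

section

variable {n : ℕ} {E : Type} [Field E] [Algebra ℂ E]

/-- the polynomial `F(X 0, …, X n, W)` -/
noncomputable def Phi (F : MvPolynomial (Fin (n + 2)) ℂ) (x : Fin (n + 2) → E) : E[X] :=
  MvPolynomial.aeval (fun j => if j = Fin.last (n + 1) then X else C (x j)) F

theorem aeval_Phi {N : Type} [CommRing N] [Algebra ℂ N] [Algebra E N] [IsScalarTower ℂ E N]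
    (F : MvPolynomial (Fin (n + 2)) ℂ) (x : Fin (n + 2) → E) (w : N) :
    aeval w (Phi F x) = MvPolynomial.aeval
      (fun j => if j = Fin.last (n + 1) then w else algebraMap E N (x j)) F := by
  have h1 := MvPolynomial.comp_aeval_apply
    (φ := ((aeval w : E[X] →ₐ[E] N).restrictScalars ℂ))
    (fun j : Fin (n + 2) => if j = Fin.last (n + 1) then X else C (x j)) F
  have h2 : ((aeval w : E[X] →ₐ[E] N).restrictScalars ℂ) (Phi F x) = aeval w (Phi F x) := rfl
  unfold Phi at h2 ⊢
  rw [← h2, h1]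
  congr 2
  funext j
  by_cases hj : j = Fin.last (n + 1)
  · rw [if_pos hj, if_pos hj]
    exact aeval_X w
  · rw [if_neg hj, if_neg hj]
    exact aeval_C w (x j)

theorem Phi_eval (F : MvPolynomial (Fin (n + 2)) ℂ) (x : Fin (n + 2) → E) :
    (Phi F x).eval (x (Fin.last (n + 1))) = MvPolynomial.aeval x F := by
  have h1 := aeval_Phi (N := E) F x (x (Fin.last (n + 1)))
  rw [coe_aeval_eq_eval] at h1
  rw [h1]
  congr 2
  funext j
  by_cases hj : j = Fin.last (n + 1)
  · rw [if_pos hj, hj]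
  · rw [if_neg hj]
    rfl

theorem castSucc_ne (i : Fin (n + 1)) : i.castSucc ≠ Fin.last (n + 1) :=
  (Fin.castSucc_lt_last i).ne

theorem Phi_expand (F : MvPolynomial (Fin (n + 2)) ℂ) (x : Fin (n + 2) → E) :
    Phi F x = ∑ m ∈ F.support, C (algebraMap ℂ E (F.coeff m) *
      ∏ i : Fin (n + 1), x i.castSucc ^ m i.castSucc) * X ^ m (Fin.last (n + 1)) := by
  unfold Phi
  rw [MvPolynomial.aeval_def, MvPolynomial.eval₂_eq']
  refine Finset.sum_congr rfl fun m _ => ?_
  rw [Fin.prod_univ_castSucc, if_pos rfl]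
  have h1 : ∀ i : Fin (n + 1), (if i.castSucc = Fin.last (n + 1) then X
      else C (x i.castSucc)) ^ m i.castSucc = C (x i.castSucc ^ m i.castSucc) := by
    intro i
    rw [if_neg (castSucc_ne i), map_pow]
  rw [Finset.prod_congr rfl fun i _ => h1 i]
  rw [show algebraMap ℂ E[X] (F.coeff m) = C (algebraMap ℂ E (F.coeff m)) from rfl]
  simp only [map_mul, map_prod]
  ring

theorem sum_eq {F : MvPolynomial (Fin (n + 2)) ℂ} {d : ℕ} (hF : F.IsHomogeneous d)
    {m : Fin (n + 2) →₀ ℕ} (hm : m ∈ F.support) : ∑ i, m i = d := by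
  have h2 := hF (MvPolynomial.mem_support_iff.1 hm)
  rw [← h2, Finsupp.weight_apply, Finsupp.sum_fintype _ _ fun i => by simp]
  simp

theorem Phi_natDegree_le {F : MvPolynomial (Fin (n + 2)) ℂ} {d : ℕ} (hF : F.IsHomogeneous d)
    (x : Fin (n + 2) → E) : (Phi F x).natDegree ≤ d := by
  rw [Phi_expand]
  refine natDegree_sum_le_of_forall_le _ _ fun m hm => ?_
  refine (natDegree_C_mul_X_pow_le _ _).trans ?_
  rw [← sum_eq hF hm]
  exact Finset.single_le_sum (f := fun i => m i) (fun i _ => Nat.zero_le _) (Finset.mem_univ _)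

theorem Phi_coeff {F : MvPolynomial (Fin (n + 2)) ℂ} {d : ℕ} (hF : F.IsHomogeneous d)
    (x : Fin (n + 2) → E) :
    (Phi F x).coeff d =
      algebraMap ℂ E (MvPolynomial.eval (Pi.single (Fin.last (n + 1)) 1) F) := by
  rw [Phi_expand, finsetSum_coeff, MvPolynomial.eval_eq', map_sum]
  refine Finset.sum_congr rfl fun m hm => ?_
  rw [coeff_C_mul, coeff_X_pow, Fin.prod_univ_castSucc
    (fun i : Fin (n + 2) => (Pi.single (Fin.last (n + 1)) (1 : ℂ) : Fin (n + 2) → ℂ) i ^ m i),
    Pi.single_eq_same, one_pow, mul_one]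
  have h1 := sum_eq hF hm
  rw [Fin.sum_univ_castSucc] at h1
  by_cases h3 : d = m (Fin.last (n + 1))
  · have h0 : ∑ i : Fin (n + 1), m i.castSucc = 0 := by omega
    have h0' : ∀ i : Fin (n + 1), m i.castSucc = 0 := fun i =>
      (Finset.sum_eq_zero_iff.1 h0) i (Finset.mem_univ _)
    rw [if_pos h3]
    simp [h0']
  · rw [if_neg h3, mul_zero]
    have h4 : ∃ i : Fin (n + 1), m i.castSucc ≠ 0 := by
      by_contra hcon
      push Not at hcon
      apply h3
      rw [← h1, Finset.sum_eq_zero fun i _ => hcon i, zero_add]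
    obtain ⟨i, hi⟩ := h4
    have h5 : ∏ i : Fin (n + 1), (Pi.single (Fin.last (n + 1)) (1 : ℂ) : Fin (n + 2) → ℂ)
        i.castSucc ^ m i.castSucc = 0 := by
      refine Finset.prod_eq_zero (Finset.mem_univ i) ?_
      rw [Pi.single_eq_of_ne (castSucc_ne i), zero_pow hi]
    rw [h5, mul_zero, map_zero]

end

end Pool.Agent.N935.HN
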